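import Mathlib

/-!
# Infinitary first-order formulas over a signature of function symbols

Syntax, substitution, intuitionistic derivability, structures.
-/

set_option autoImplicit false

namespace Q211.WR

/-- A signature with function symbols only (constants are the function symbols of arity `0`). -/
structure Sig where
  Fn : Type
  ar : Fn → ℕ

variable {S : Sig}

/-- Terms whose variables are among `x_0, …, x_{n-1}`. -/
inductive Tm (S : Sig) (n : ℕ) : Type
  | var (i : Fin n) : Tm S n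
  | app (f : S.Fn) (a : Fin (S.ar f) → Tm S n) : Tm S n

/-- First-order formulas with equality and with disjunctions indexed by arbitrary small sets, whose
free variables are among `x_0, …, x_{n-1}`. The quantifiers bind the variable `x_0` of their scope,
the other variables of the scope are numbered up by one. Negation is `φ → ⊥`. Sentences are the
members of `Fm S 0`. -/
inductive Fm (S : Sig) : ℕ → Type 1
  | eq {n : ℕ} (s t : Tm S n) : Fm S n
  | top {n : ℕ} : Fm S n
  | bot {n : ℕ} : Fm S n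
  | and {n : ℕ} (φ ψ : Fm S n) : Fm S n
  | or {n : ℕ} (I : Type) (φ : I → Fm S n) : Fm S n
  | imp {n : ℕ} (φ ψ : Fm S n) : Fm S n
  | all {n : ℕ} (φ : Fm S (n + 1)) : Fm S n
  | ex {n : ℕ} (φ : Fm S (n + 1)) : Fm S n

/-- The assignment `a, v 0, v 1, …`. -/
def cs {M : Type*} {n : ℕ} (a : M) (v : Fin n → M) : Fin (n + 1) → M :=
  fun i => Fin.cases a v i

@[simp] theorem cs_zero {M : Type*} {n : ℕ} (a : M) (v : Fin n → M) : cs a v 0 = a := rfl

@[simp] theorem cs_succ {M : Type*} {n : ℕ} (a : M) (v : Fin n → M) (i : Fin n) :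
    cs a v i.succ = v i := rfl

theorem comp_cs {M N : Type*} {n : ℕ} (h : M → N) (a : M) (v : Fin n → M) :
    h ∘ cs a v = cs (h a) (h ∘ v) := by
  funext i
  refine Fin.cases rfl (fun j => rfl) i

theorem cs_eta {M : Type*} {n : ℕ} (w : Fin (n + 1) → M) : cs (w 0) (fun i => w i.succ) = w := by
  funext i
  refine Fin.cases rfl (fun j => rfl) i

/-- Substitution in terms. -/
def Tm.sub {n m : ℕ} (σ : Fin n → Tm S m) : Tm S n → Tm S m
  | .var i => σ i
  | .app f a => .app f fun i => (a i).sub σ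

/-- The substitution `σ` in the scope of a quantifier. -/
def up {n m : ℕ} (σ : Fin n → Tm S m) : Fin (n + 1) → Tm S (m + 1) :=
  cs (.var 0) fun j => (σ j).sub fun l => .var l.succ

/-- Substitution in formulas. -/
def Fm.sub : {n m : ℕ} → (Fin n → Tm S m) → Fm S n → Fm S m
  | _, _, σ, .eq s t => .eq (s.sub σ) (t.sub σ)
  | _, _, _, .top => .top
  | _, _, _, .bot => .bot
  | _, _, σ, .and φ ψ => .and (φ.sub σ) (ψ.sub σ)
  | _, _, σ, .or I φ => .or I fun i => (φ i).sub σ
  | _, _, σ, .imp φ ψ => .imp (φ.sub σ) (ψ.sub σ)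
  | _, _, σ, .all φ => .all (φ.sub (up σ))
  | _, _, σ, .ex φ => .ex (φ.sub (up σ))

/-- The formula `φ` with a new variable `x_0`. -/
def Fm.wk {n : ℕ} (φ : Fm S n) : Fm S (n + 1) := φ.sub fun i => .var i.succ

/-- The formula `φ(t, x_0, …, x_{n-1})`. -/
def Fm.inst {n : ℕ} (t : Tm S n) (φ : Fm S (n + 1)) : Fm S n := φ.sub (cs t .var)

/-- The universal closure of a formula. -/
def closure : (n : ℕ) → Fm S n → Fm S 0
  | 0, φ => φ
  | n + 1, φ => closure n (.all φ)

/-- Derivability from the sentences in `T` and the hypotheses `Γ` in intuitionistic first-order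
logic with equality and small disjunctions. All formulas of a derivation have their free variables
in a declared list of variables. -/
inductive Prf (T : Set (Fm S 0)) : {n : ℕ} → Set (Fm S n) → Fm S n → Prop
  | ax {n : ℕ} {Γ : Set (Fm S n)} {φ : Fm S 0} (h : φ ∈ T) : Prf T Γ (φ.sub fun i => i.elim0)
  | hyp {n : ℕ} {Γ : Set (Fm S n)} {φ : Fm S n} (h : φ ∈ Γ) : Prf T Γ φ
  | topI {n : ℕ} {Γ : Set (Fm S n)} : Prf T Γ .top
  | botE {n : ℕ} {Γ : Set (Fm S n)} {φ : Fm S n} (h : Prf T Γ .bot) : Prf T Γ φ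
  | andI {n : ℕ} {Γ : Set (Fm S n)} {φ ψ : Fm S n} (h₁ : Prf T Γ φ) (h₂ : Prf T Γ ψ) :
      Prf T Γ (.and φ ψ)
  | andL {n : ℕ} {Γ : Set (Fm S n)} {φ ψ : Fm S n} (h : Prf T Γ (.and φ ψ)) : Prf T Γ φ
  | andR {n : ℕ} {Γ : Set (Fm S n)} {φ ψ : Fm S n} (h : Prf T Γ (.and φ ψ)) : Prf T Γ ψ
  | orI {n : ℕ} {Γ : Set (Fm S n)} {I : Type} {φ : I → Fm S n} (i : I) (h : Prf T Γ (φ i)) :
      Prf T Γ (.or I φ)
  | orE {n : ℕ} {Γ : Set (Fm S n)} {I : Type} {φ : I → Fm S n} {ψ : Fm S n}
      (h : Prf T Γ (.or I φ)) (h' : ∀ i, Prf T (insert (φ i) Γ) ψ) : Prf T Γ ψ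
  | impI {n : ℕ} {Γ : Set (Fm S n)} {φ ψ : Fm S n} (h : Prf T (insert φ Γ) ψ) :
      Prf T Γ (.imp φ ψ)
  | impE {n : ℕ} {Γ : Set (Fm S n)} {φ ψ : Fm S n} (h : Prf T Γ (.imp φ ψ)) (h' : Prf T Γ φ) :
      Prf T Γ ψ
  | allI {n : ℕ} {Γ : Set (Fm S n)} {φ : Fm S (n + 1)} (h : Prf T (Fm.wk '' Γ) φ) :
      Prf T Γ (.all φ)
  | allE {n : ℕ} {Γ : Set (Fm S n)} {φ : Fm S (n + 1)} (t : Tm S n) (h : Prf T Γ (.all φ)) :
      Prf T Γ (φ.inst t)
  | exI {n : ℕ} {Γ : Set (Fm S n)} {φ : Fm S (n + 1)} (t : Tm S n) (h : Prf T Γ (φ.inst t)) :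
      Prf T Γ (.ex φ)
  | exE {n : ℕ} {Γ : Set (Fm S n)} {φ : Fm S (n + 1)} {ψ : Fm S n} (h : Prf T Γ (.ex φ))
      (h' : Prf T (insert φ (Fm.wk '' Γ)) ψ.wk) : Prf T Γ ψ
  | refl {n : ℕ} {Γ : Set (Fm S n)} (t : Tm S n) : Prf T Γ (.eq t t)
  | leib {n : ℕ} {Γ : Set (Fm S n)} {s t : Tm S n} (φ : Fm S (n + 1)) (h : Prf T Γ (.eq s t))
      (h' : Prf T Γ (φ.inst s)) : Prf T Γ (φ.inst t)

/-- Geometric formulas. -/
inductive Geo : {n : ℕ} → Fm S n → Prop
  | eq {n : ℕ} (s t : Tm S n) : Geo (.eq s t)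
  | top {n : ℕ} : Geo (.top : Fm S n)
  | bot {n : ℕ} : Geo (.bot : Fm S n)
  | and {n : ℕ} {φ ψ : Fm S n} (h₁ : Geo φ) (h₂ : Geo ψ) : Geo (.and φ ψ)
  | or {n : ℕ} {I : Type} {φ : I → Fm S n} (h : ∀ i, Geo (φ i)) : Geo (.or I φ)
  | ex {n : ℕ} {φ : Fm S (n + 1)} (h : Geo φ) : Geo (.ex φ)

/-- `T` is an algebraic theory: its axioms are universal closures of equations. -/
def Algebraic (T : Set (Fm S 0)) : Prop :=
  ∀ φ ∈ T, ∃ (n : ℕ) (s t : Tm S n), φ = closure n (.eq s t)

/-- `α` is `T`-redundant: every geometric implication which is derivable from `T` and `α` is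
derivable from `T`. -/
def Redundant (T : Set (Fm S 0)) (α : Fm S 0) : Prop :=
  ∀ (n : ℕ) (φ ψ : Fm S n), Geo φ → Geo ψ →
    Prf (insert α T) ∅ (closure n (.imp φ ψ)) → Prf T ∅ (closure n (.imp φ ψ))

/-- Structures for the signature `S`. -/
structure Alg (S : Sig) where
  car : Type
  op : (f : S.Fn) → (Fin (S.ar f) → car) → car

/-- The value of a term. -/
def Tm.ev (A : Alg S) {n : ℕ} (v : Fin n → A.car) : Tm S n → A.car
  | .var i => v i
  | .app f a => A.op f fun i => (a i).ev A v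

/-- Satisfaction of formulas in structures (in the usual classical sense). -/
def Sat (A : Alg S) : {n : ℕ} → Fm S n → (Fin n → A.car) → Prop
  | _, .eq s t, v => s.ev A v = t.ev A v
  | _, .top, _ => True
  | _, .bot, _ => False
  | _, .and φ ψ, v => Sat A φ v ∧ Sat A ψ v
  | _, .or I φ, v => ∃ i : I, Sat A (φ i) v
  | _, .imp φ ψ, v => Sat A φ v → Sat A ψ v
  | _, .all φ, v => ∀ a, Sat A φ (cs a v)
  | _, .ex φ, v => ∃ a, Sat A φ (cs a v)

/-- `A` is a model of `T`. -/
def Models (A : Alg S) (T : Set (Fm S 0)) : Prop := ∀ φ ∈ T, Sat A φ fun i => i.elim0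

/-- Homomorphisms. -/
structure Hom (A B : Alg S) where
  f : A.car → B.car
  op : ∀ (g : S.Fn) (a : Fin (S.ar g) → A.car), f (A.op g a) = B.op g fun i => f (a i)

/-- `A` is a finitely presented model of the algebraic theory `T`: there are finitely many
generators `x i` and finitely many relations `e ∈ E` such that `A` is the universal model of `T`
generated by the `x i` with these relations. -/
def FinPres (T : Set (Fm S 0)) (A : Alg S) : Prop :=
  Models A T ∧ ∃ (n : ℕ) (x : Fin n → A.car) (E : List (Tm S n × Tm S n)),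
    (∀ e ∈ E, e.1.ev A x = e.2.ev A x) ∧
    ∀ B : Alg S, Models B T → ∀ y : Fin n → B.car, (∀ e ∈ E, e.1.ev B y = e.2.ev B y) →
      ∃! h : Hom A B, ∀ i, h.f (x i) = y i

/-- The Kripke–Joyal semantics of the generic model of the algebraic theory `T`. The classifying
topos of `T` is the topos of functors from the category of the finitely presented models of `T` (and
all homomorphisms) to sets, the generic model is the functor `A ↦ A`. `Force T φ A v` says that the
formula `φ` is forced at the stage `A` for the elements `v` of `A`. -/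
def Force (T : Set (Fm S 0)) : {n : ℕ} → Fm S n → (A : Alg S) → (Fin n → A.car) → Prop
  | _, .eq s t, A, v => s.ev A v = t.ev A v
  | _, .top, _, _ => True
  | _, .bot, _, _ => False
  | _, .and φ ψ, A, v => Force T φ A v ∧ Force T ψ A v
  | _, .or I φ, A, v => ∃ i : I, Force T (φ i) A v
  | _, .imp φ ψ, A, v => ∀ (B : Alg S) (h : Hom A B), FinPres T B →
      Force T φ B (h.f ∘ v) → Force T ψ B (h.f ∘ v)
  | _, .all φ, A, v => ∀ (B : Alg S) (h : Hom A B), FinPres T B →
      ∀ b : B.car, Force T φ B (cs b (h.f ∘ v))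
  | _, .ex φ, A, v => ∃ a : A.car, Force T φ A (cs a v)

/-- The sentence `α` is true in the generic model of `T`. -/
def GenericTrue (T : Set (Fm S 0)) (α : Fm S 0) : Prop :=
  ∀ A : Alg S, FinPres T A → Force T α A fun i => i.elim0

end Q211.WR
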