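import Pool.Agent.Q211.WR.Pres

/-!
# The Kripke–Joyal semantics of the generic model
-/

set_option autoImplicit false

namespace Q211.WR

variable {S : Sig} {T : Set (Fm S 0)}

/-- The identity. -/
def Hom.id (A : Alg S) : Hom A A := ⟨fun a => a, fun _ _ => rfl⟩

/-- Composition. -/
def Hom.comp {A B C : Alg S} (g : Hom B C) (h : Hom A B) : Hom A C :=
  ⟨fun a => g.f (h.f a), fun f a => by rw [h.op, g.op]⟩

theorem force_geo {n : ℕ} {φ : Fm S n} (hφ : Geo φ) : ∀ (A : Alg S) (v : Fin n → A.car),
    Force T φ A v ↔ Sat A φ v := by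
  induction hφ with
  | eq s t => intro A v; rfl
  | top => intro A v; rfl
  | bot => intro A v; rfl
  | and _ _ h₁ h₂ => intro A v; exact and_congr (h₁ A v) (h₂ A v)
  | or _ h => intro A v; exact exists_congr fun i => h i A v
  | ex _ h => intro A v; exact exists_congr fun a => h A _

theorem force_mono {n : ℕ} (φ : Fm S n) : ∀ (A B : Alg S) (h : Hom A B), FinPres T B →
    ∀ v : Fin n → A.car, Force T φ A v → Force T φ B (h.f ∘ v) := by
  induction φ with
  | eq s t =>
      intro A B h _ v hv
      change s.ev B _ = t.ev B _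
      rw [← h.ev, ← h.ev]
      exact congrArg h.f hv
  | top => intro A B h _ v hv; trivial
  | bot => intro A B h _ v hv; exact hv
  | and φ ψ h₁ h₂ => intro A B h hB v hv; exact ⟨h₁ A B h hB v hv.1, h₂ A B h hB v hv.2⟩
  | or I φ ih =>
      intro A B h hB v hv
      obtain ⟨i, hi⟩ := hv
      exact ⟨i, ih i A B h hB v hi⟩
  | imp φ ψ _ _ =>
      intro A B h _ v hv C g hC hφ
      exact hv C (g.comp h) hC hφ
  | all φ _ =>
      intro A B h _ v hv C g hC c
      exact hv C (g.comp h) hC c
  | ex φ ih =>
      intro A B h hB v hv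
      obtain ⟨a, ha⟩ := hv
      refine ⟨h.f a, ?_⟩
      have := ih A B h hB _ ha
      rwa [comp_cs] at this

theorem force_sub {n : ℕ} (φ : Fm S n) : ∀ {m : ℕ} (σ : Fin n → Tm S m) (A : Alg S)
    (v : Fin m → A.car), Force T (φ.sub σ) A v ↔ Force T φ A fun i => (σ i).ev A v := by
  have key : ∀ {A B : Alg S} (h : Hom A B) {n m : ℕ} (σ : Fin n → Tm S m) (v : Fin m → A.car),
      (fun i => (σ i).ev B (h.f ∘ v)) = h.f ∘ fun i => (σ i).ev A v := by
    intro A B h n m σ v
    funext i
    exact (h.ev v (σ i)).symm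
  induction φ with
  | eq s t => intro m σ A v; simp only [Fm.sub, Force, ev_sub]
  | top => intro m σ A v; rfl
  | bot => intro m σ A v; rfl
  | and φ ψ h₁ h₂ => intro m σ A v; simp only [Fm.sub, Force, h₁, h₂]
  | or I φ h => intro m σ A v; simp only [Fm.sub, Force, h]
  | imp φ ψ h₁ h₂ => intro m σ A v; simp only [Fm.sub, Force, h₁, h₂, key]
  | all φ h => intro m σ A v; simp only [Fm.sub, Force, h, ev_up, key]
  | ex φ h => intro m σ A v; simp only [Fm.sub, Force, h, ev_up]

theorem force_wk (A : Alg S) {n : ℕ} (φ : Fm S n) (a : A.car) (v : Fin n → A.car) :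
    Force T φ.wk A (cs a v) ↔ Force T φ A v := by
  rw [Fm.wk, force_sub]; rfl

theorem force_inst (A : Alg S) {n : ℕ} (φ : Fm S (n + 1)) (t : Tm S n) (v : Fin n → A.car) :
    Force T (φ.inst t) A v ↔ Force T φ A (cs (t.ev A v) v) := by
  rw [Fm.inst, force_sub]
  have : (fun i => (cs t .var i : Tm S n).ev A v) = cs (t.ev A v) v := by
    funext i
    refine Fin.cases rfl (fun j => rfl) i
  rw [this]

theorem generic_closure : ∀ (n : ℕ) (φ : Fm S n),
    GenericTrue T (closure n φ) ↔ ∀ A : Alg S, FinPres T A → ∀ v, Force T φ A v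
  | 0, φ => by
      refine forall_congr' fun A => forall_congr' fun hA => ⟨fun h v => ?_, fun h => h _⟩
      rwa [Subsingleton.elim v fun i => i.elim0]
  | n + 1, φ => by
      rw [closure, generic_closure n]
      constructor
      · intro h A hA v
        have := h A hA (fun i => v i.succ) A (Hom.id A) hA (v 0)
        have e : cs (v 0) ((Hom.id A).f ∘ fun i => v i.succ) = v := cs_eta v
        rwa [e] at this
      · intro h A hA v B g hB b
        exact h B hB _

/-- Soundness of intuitionistic logic in the generic model. -/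
theorem force_sound {T' : Set (Fm S 0)} (hT' : ∀ α ∈ T', GenericTrue T α) {n : ℕ}
    {Γ : Set (Fm S n)} {φ : Fm S n} (h : Prf T' Γ φ) : ∀ A : Alg S, FinPres T A →
      ∀ v : Fin n → A.car, (∀ γ ∈ Γ, Force T γ A v) → Force T φ A v := by
  induction h with
  | ax h =>
      intro A hA v _
      rw [force_sub, Subsingleton.elim (fun i => _) fun i => i.elim0]
      exact hT' _ h A hA
  | hyp h => intro A hA v hv; exact hv _ h
  | topI => intro A hA v hv; trivial
  | botE _ h => intro A hA v hv; exact (h A hA v hv).elim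
  | andI _ _ h₁ h₂ => intro A hA v hv; exact ⟨h₁ A hA v hv, h₂ A hA v hv⟩
  | andL _ h => intro A hA v hv; exact (h A hA v hv).1
  | andR _ h => intro A hA v hv; exact (h A hA v hv).2
  | orI i _ h => intro A hA v hv; exact ⟨i, h A hA v hv⟩
  | orE _ _ h h' =>
      intro A hA v hv
      obtain ⟨i, hi⟩ := h A hA v hv
      exact h' i A hA v (Set.forall_mem_insert.2 ⟨hi, hv⟩)
  | impI _ h =>
      intro A hA v hv B g hB hφ
      exact h B hB _ (Set.forall_mem_insert.2 ⟨hφ, fun γ hγ => force_mono γ A B g hB v (hv γ hγ)⟩)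
  | impE _ _ h h' =>
      intro A hA v hv
      exact h A hA v hv A (Hom.id A) hA (h' A hA v hv)
  | allI _ h =>
      intro A hA v hv B g hB b
      refine h B hB _ ?_
      rintro _ ⟨γ, hγ, rfl⟩
      exact (force_wk B γ b _).2 (force_mono γ A B g hB v (hv γ hγ))
  | allE t _ h =>
      intro A hA v hv
      exact (force_inst A _ t v).2 (h A hA v hv A (Hom.id A) hA _)
  | exI t _ h => intro A hA v hv; exact ⟨_, (force_inst A _ t v).1 (h A hA v hv)⟩
  | exE _ _ h h' =>
      intro A hA v hv
      obtain ⟨a, ha⟩ := h A hA v hv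
      refine (force_wk A _ a v).1 (h' A hA _ (Set.forall_mem_insert.2 ⟨ha, ?_⟩))
      rintro _ ⟨γ, hγ, rfl⟩
      exact (force_wk A γ a v).2 (hv γ hγ)
  | refl t => intro A hA v hv; rfl
  | leib φ _ _ h h' =>
      intro A hA v hv
      have h1 := h A hA v hv
      have h2 := h' A hA v hv
      rw [force_inst] at h2 ⊢
      rw [← show _ = _ from h1]
      exact h2

/-- The geometric implications which are true in the generic model are those which are derivable
from `T`. -/
theorem generic_geo (hT : Algebraic T) {n : ℕ} {φ ψ : Fm S n} (hφ : Geo φ) (hψ : Geo ψ) :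
    GenericTrue T (closure n (.imp φ ψ)) ↔ Prf T ∅ (closure n (.imp φ ψ)) := by
  rw [generic_closure]
  constructor
  · intro h
    refine complete hT hφ hψ fun m E v hv => ?_
    have h1 := h (pres T E) (finPres_pres hT E) v (pres T E) (Hom.id _) (finPres_pres hT E)
      ((force_geo hφ _ _).2 hv)
    exact (force_geo hψ _ _).1 h1
  · intro h A hA v B g hB hv
    have h1 := sound hB.1 h (fun i => i.elim0) (by simp)
    rw [sat_closure] at h1
    exact (force_geo hψ _ _).2 (h1 _ ((force_geo hφ _ _).1 hv))

/-- Axioms are true in the generic model. -/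
theorem generic_ax (hT : Algebraic T) {φ : Fm S 0} (h : φ ∈ T) : GenericTrue T φ := by
  obtain ⟨k, s, t, rfl⟩ := hT φ h
  rw [generic_closure]
  intro A hA v
  exact (sat_closure A k _ _).1 (hA.1 _ h) v

/-- Theorem of Wraith: what is true in the generic model is redundant. -/
theorem redundant_of_generic (hT : Algebraic T) {α : Fm S 0} (h : GenericTrue T α) :
    Redundant T α := by
  intro n φ ψ hφ hψ hp
  rw [← generic_geo hT hφ hψ]
  intro A hA
  refine force_sound (T := T) (T' := insert α T) ?_ hp A hA _ (by simp)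
  rintro χ (rfl | hχ)
  · exact h
  · exact generic_ax hT hχ

end Q211.WR
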