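import Pool.Agent.Q211.WR.Forc

/-!
# Redundant sentences of algebraic theories
-/

set_option autoImplicit false

namespace Q211.WR

variable {S : Sig} {T : Set (Fm S 0)}

/-- Binary disjunction. -/
def lor {n : ℕ} (φ ψ : Fm S n) : Fm S n := .or Bool fun b => cond b φ ψ

/-- Negation. -/
def neg {n : ℕ} (φ : Fm S n) : Fm S n := .imp φ .bot

/-- The sentence `∀ x y, x = y ∨ ¬ x = y`. -/
def dec (S : Sig) : Fm S 0 :=
  .all (.all (lor (.eq (.var 1) (.var 0)) (neg (.eq (.var 1) (.var 0)))))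

/-- The sentence `(∃ x, ⊤) ∨ ¬ (∃ x, ⊤)`. -/
def inh (S : Sig) : Fm S 0 := lor (.ex .top) (neg (.ex .top))

/-- The sentence `∀ x y, x = y`. -/
def triv (S : Sig) : Fm S 0 := .all (.all (.eq (.var 1) (.var 0)))

/-- The sentence `∃ x, ∀ y, x = y`. -/
def one (S : Sig) : Fm S 0 := .ex (.all (.eq (.var 1) (.var 0)))

theorem sat_lor {A : Alg S} {n : ℕ} {φ ψ : Fm S n} {v : Fin n → A.car} :
    Sat A (lor φ ψ) v ↔ Sat A φ v ∨ Sat A ψ v := by
  constructor
  · rintro ⟨b, hb⟩
    cases b
    · exact Or.inr hb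
    · exact Or.inl hb
  · rintro (h | h)
    · exact ⟨true, h⟩
    · exact ⟨false, h⟩

theorem force_lor {A : Alg S} {n : ℕ} {φ ψ : Fm S n} {v : Fin n → A.car} :
    Force T (lor φ ψ) A v ↔ Force T φ A v ∨ Force T ψ A v := by
  constructor
  · rintro ⟨b, hb⟩
    cases b
    · exact Or.inr hb
    · exact Or.inl hb
  · rintro (h | h)
    · exact ⟨true, h⟩
    · exact ⟨false, h⟩

theorem redundant_dec (hT : Algebraic T) : Redundant T (dec S) := by
  refine redundant_of_sat hT fun A _ => ?_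
  intro a b
  rw [sat_lor]
  exact em _

theorem redundant_inh (hT : Algebraic T) : Redundant T (inh S) := by
  refine redundant_of_sat hT fun A _ => ?_
  rw [inh, sat_lor]
  exact em _

theorem not_force_dec (hT : Algebraic T) {m : ℕ} (E : List (Tm S m × Tm S m)) (i j : Fin m)
    (hij : ¬ Prf T (gam E) (.eq (.var i) (.var j))) {A : Alg S} (h : Hom A (pres T E))
    (v : Fin 0 → A.car) : ¬ Force T (dec S) A v := by
  intro hf
  have h1 := hf (pres T E) h (finPres_pres hT E) (cl T E (.var i)) (pres T E) (Hom.id _)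
    (finPres_pres hT E) (cl T E (.var j))
  rw [force_lor] at h1
  rcases h1 with h1 | h1
  · exact hij (cl_eq.1 h1)
  · let E' : List (Tm S m × Tm S m) := (.var i, .var j) :: E
    have hm := models_pres hT E'
    have hy : ∀ e ∈ E, e.1.ev (pres T E') (fun i => cl T E' (.var i)) =
        e.2.ev (pres T E') (fun i => cl T E' (.var i)) := by
      intro e he
      rw [ev_var, ev_var, cl_eq]
      exact .hyp ⟨e, List.mem_cons_of_mem _ he, rfl⟩
    refine h1 (pres T E') (lift hm _ hy) (finPres_pres hT E') ?_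
    change cl T E' (.var i) = cl T E' (.var j)
    rw [cl_eq]
    exact .hyp ⟨_, List.mem_cons_self, rfl⟩

theorem not_generic_dec (hT : Algebraic T) (h : ¬ Prf T ∅ (triv S)) :
    ¬ GenericTrue T (dec S) := by
  intro hg
  have hm := models_pres hT ([] : List (Tm S 2 × Tm S 2))
  refine not_force_dec hT ([] : List (Tm S 2 × Tm S 2)) 1 0 (fun hp => h ?_)
    (lift (E := ([] : List (Tm S 0 × Tm S 0))) hm (fun i => i.elim0) (by simp)) _
    (hg (pres T ([] : List (Tm S 0 × Tm S 0))) (finPres_pres hT _))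
  refine closure_intro 2 (.eq (.var 1) (.var 0)) (hp.mono subset_rfl ?_)
  rintro _ ⟨e, he, rfl⟩
  simp at he

theorem closed_of_generic (hT : Algebraic T) (h : GenericTrue T (inh S)) : Nonempty (Tm S 0) := by
  have h1 := h (pres T ([] : List (Tm S 0 × Tm S 0))) (finPres_pres hT _)
  rw [inh, force_lor] at h1
  rcases h1 with ⟨a, -⟩ | h1
  · obtain ⟨t, -⟩ := cl_surj a
    exact ⟨t⟩
  · have hm := models_pres hT ([] : List (Tm S 1 × Tm S 1))
    exact (h1 (pres T ([] : List (Tm S 1 × Tm S 1)))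
      (lift (E := ([] : List (Tm S 0 × Tm S 0))) hm (fun i => i.elim0) (by simp))
      (finPres_pres hT _) ⟨cl T _ (.var 0), trivial⟩).elim

theorem eq_of_triv (hT : Algebraic T) (h : ∀ A : Alg S, Models A T → ∀ a b : A.car, a = b)
    {n : ℕ} {Γ : Set (Fm S n)} (s t : Tm S n) : Prf T Γ (.eq s t) := by
  have h1 := h (pres T ([] : List (Tm S n × Tm S n))) (models_pres hT _) (cl T _ s) (cl T _ t)
  rw [cl_eq] at h1
  refine h1.mono subset_rfl ?_
  rintro _ ⟨e, he, rfl⟩
  simp at he

theorem one_of_all (hT : Algebraic T) (H : ∀ α, Redundant T α → GenericTrue T α) :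
    Prf T ∅ (one S) := by
  obtain ⟨c⟩ := closed_of_generic hT (H _ (redundant_inh hT))
  have h1 : Prf T ∅ (triv S) := by
    by_contra h
    exact not_generic_dec hT h (H _ (redundant_dec hT))
  have h2 : ∀ A : Alg S, Models A T → ∀ a b : A.car, a = b := by
    intro A hA a b
    exact sound hA h1 (fun i => i.elim0) (by simp) a b
  exact .exI c (.allI (eq_of_triv hT h2 _ _))

/-- The structure with one element. -/
def pt (S : Sig) : Alg S := ⟨Unit, fun _ _ => ()⟩

theorem models_pt (hT : Algebraic T) : Models (pt S) T := by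
  intro φ hφ
  obtain ⟨k, s, t, rfl⟩ := hT φ hφ
  rw [sat_closure]
  intro w
  rfl

theorem decide_pt (hT : Algebraic T) (h : ∀ A : Alg S, Models A T → ∀ a b : A.car, a = b)
    (hc : ∀ n, Nonempty (Tm S n)) {n : ℕ} (φ : Fm S n) :
    (Sat (pt S) φ (fun _ => ()) → ∀ Γ, Prf T Γ φ) ∧
      (¬ Sat (pt S) φ (fun _ => ()) → ∀ Γ, Prf T Γ (neg φ)) := by
  have hcs : ∀ {n : ℕ} (a : (pt S).car), cs a (fun _ : Fin n => (() : (pt S).car)) =
      fun _ => () := fun a => funext fun i => rfl
  induction φ with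
  | eq s t => exact ⟨fun _ Γ => eq_of_triv hT h s t, fun hn => (hn rfl).elim⟩
  | top => exact ⟨fun _ Γ => .topI, fun hn => (hn trivial).elim⟩
  | bot => exact ⟨fun hn => hn.elim, fun _ Γ => .impI (.hyp (Or.inl rfl))⟩
  | and φ ψ h₁ h₂ =>
      refine ⟨fun hs Γ => .andI (h₁.1 hs.1 Γ) (h₂.1 hs.2 Γ), fun hn Γ => .impI ?_⟩
      by_cases h3 : Sat (pt S) φ (fun _ => ())
      · exact .impE (h₂.2 (fun h4 => hn ⟨h3, h4⟩) _) (.andR (.hyp (Or.inl rfl)))
      · exact .impE (h₁.2 h3 _) (.andL (.hyp (Or.inl rfl)))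
  | or I φ ih =>
      refine ⟨fun hs Γ => ?_, fun hn Γ => .impI (.orE (.hyp (Or.inl rfl)) fun i => ?_)⟩
      · obtain ⟨i, hi⟩ := hs
        exact .orI i ((ih i).1 hi Γ)
      · exact .impE ((ih i).2 (fun h4 => hn ⟨i, h4⟩) _) (.hyp (Or.inl rfl))
  | imp φ ψ h₁ h₂ =>
      refine ⟨fun hs Γ => .impI ?_, fun hn Γ => .impI ?_⟩
      · by_cases h3 : Sat (pt S) φ (fun _ => ())
        · exact h₂.1 (hs h3) _
        · exact .botE (.impE (h₁.2 h3 _) (.hyp (Or.inl rfl)))
      · have h4 : Sat (pt S) φ (fun _ => ()) ∧ ¬ Sat (pt S) ψ (fun _ => ()) := by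
          constructor
          · by_contra h5
            exact hn fun h6 => (h5 h6).elim
          · intro h5
            exact hn fun _ => h5
        exact .impE (h₂.2 h4.2 _) (.impE (.hyp (Or.inl rfl)) (h₁.1 h4.1 _))
  | @all n φ ih =>
      refine ⟨fun hs Γ => .allI (ih.1 ?_ _), fun hn Γ => .impI ?_⟩
      · have := hs ()
        rwa [hcs] at this
      · obtain ⟨t⟩ := hc n
        have h5 : ¬ Sat (pt S) φ (fun _ => ()) := by
          intro h6
          refine hn fun a => ?_
          rwa [hcs]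
        have h7 : Prf T (insert (.all φ) Γ) (.all (neg φ)) := .allI (ih.2 h5 _)
        exact .impE (.allE t h7) (.allE t (.hyp (Or.inl rfl)))
  | @ex n φ ih =>
      refine ⟨fun hs Γ => ?_, fun hn Γ => .impI ?_⟩
      · obtain ⟨t⟩ := hc n
        obtain ⟨a, ha⟩ := hs
        rw [hcs] at ha
        have h7 : Prf T Γ (.all φ) := .allI (ih.1 ha _)
        exact .exI t (.allE t h7)
      · have h5 : ¬ Sat (pt S) φ (fun _ => ()) := by
          intro h6
          refine hn ⟨(), ?_⟩
          rwa [hcs]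
        exact .exE (.hyp (Or.inl rfl)) (.impE (ih.2 h5 _) (.hyp (Or.inl rfl)))

theorem force_pt (h : ∀ A : Alg S, Models A T → ∀ a b : A.car, a = b)
    (hn : ∀ A : Alg S, Models A T → Nonempty A.car) {n : ℕ} (φ : Fm S n) :
    ∀ (A : Alg S), FinPres T A → ∀ v : Fin n → A.car,
      (Force T φ A v ↔ Sat (pt S) φ fun _ => ()) := by
  have hcs : ∀ {n : ℕ} (a : (pt S).car), cs a (fun _ : Fin n => (() : (pt S).car)) =
      fun _ => () := fun a => funext fun i => rfl
  induction φ with
  | eq s t => intro A hA v; exact ⟨fun _ => rfl, fun _ => h A hA.1 _ _⟩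
  | top => intro A hA v; rfl
  | bot => intro A hA v; rfl
  | and φ ψ h₁ h₂ => intro A hA v; exact and_congr (h₁ A hA v) (h₂ A hA v)
  | or I φ ih => intro A hA v; exact exists_congr fun i => ih i A hA v
  | imp φ ψ h₁ h₂ =>
      intro A hA v
      constructor
      · intro hf hs
        exact (h₂ A hA v).1 (hf A (Hom.id A) hA ((h₁ A hA v).2 hs))
      · intro hs B g hB hf
        exact (h₂ B hB _).2 (hs ((h₁ B hB _).1 hf))
  | all φ ih =>
      intro A hA v
      constructor
      · intro hf a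
        obtain ⟨b⟩ := hn A hA.1
        rw [hcs]
        exact (ih A hA _).1 (hf A (Hom.id A) hA b)
      · intro hs B g hB b
        have := hs ()
        rw [hcs] at this
        exact (ih B hB _).2 this
  | ex φ ih =>
      intro A hA v
      constructor
      · rintro ⟨a, ha⟩
        refine ⟨(), ?_⟩
        rw [hcs]
        exact (ih A hA _).1 ha
      · rintro ⟨a, ha⟩
        obtain ⟨b⟩ := hn A hA.1
        rw [hcs] at ha
        exact ⟨b, (ih A hA _).2 ha⟩

theorem all_of_one (hT : Algebraic T) (H : Prf T ∅ (one S)) (α : Fm S 0) (hα : Redundant T α) :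
    GenericTrue T α := by
  have h1 : ∀ A : Alg S, Models A T → ∃ a : A.car, ∀ b, a = b := by
    intro A hA
    exact sound hA H (fun i => i.elim0) (by simp)
  have h2 : ∀ A : Alg S, Models A T → ∀ a b : A.car, a = b := by
    intro A hA a b
    obtain ⟨c, hc⟩ := h1 A hA
    rw [← hc a, ← hc b]
  have h3 : ∀ A : Alg S, Models A T → Nonempty A.car := fun A hA => ⟨(h1 A hA).choose⟩
  have hc : ∀ n, Nonempty (Tm S n) := by
    intro n
    obtain ⟨a⟩ := h3 (pres T ([] : List (Tm S n × Tm S n))) (models_pres hT _)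
    obtain ⟨t, -⟩ := cl_surj a
    exact ⟨t⟩
  intro A hA
  rw [force_pt h2 h3 α A hA]
  by_contra hs
  have hp := (decide_pt hT h2 hc α).2 hs ∅
  have hq : Prf (insert α T) ∅ (closure 0 (.imp .top .bot)) := by
    refine .impI (.impE (hp.mono (Set.subset_insert _ _) (Set.empty_subset _)) ?_)
    have h9 := Prf.ax (T := insert α T) (Γ := insert (Fm.top : Fm S 0) ∅) (Set.mem_insert α T)
    rwa [sub_zero] at h9
  have hr := hα 0 .top .bot .top .bot hq
  exact sound (models_pt hT) hr (fun i => i.elim0) (by simp) trivial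

theorem ev_const {B : Alg S} {p : B.car} (hp : ∀ f, B.op f (fun _ => p) = p) {n : ℕ}
    (t : Tm S n) : t.ev B (fun _ => p) = p := by
  induction t with
  | var i => rfl
  | app f a ih => simp only [Tm.ev, ih, hp]

theorem generic_neg_dec (hT : Algebraic T) {B : Alg S} (hB : Models B T) {p q : B.car}
    (hpq : p ≠ q) (hp : ∀ f, B.op f (fun _ => p) = p) : GenericTrue T (neg (dec S)) := by
  intro A₀ hA₀ A _ hA hf
  obtain ⟨hAm, n, x, E, hE, hU⟩ := hA
  let σ : Fin n → Tm S (n + 2) := fun i => .var i.succ.succ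
  let E' : List (Tm S (n + 2) × Tm S (n + 2)) := E.map fun e => (e.1.sub σ, e.2.sub σ)
  have hm := models_pres hT E'
  obtain ⟨h, -, -⟩ := hU (pres T E') hm (fun i => cl T E' (σ i)) (fun e he => by
    rw [ev_cl, ev_cl, cl_eq]
    exact .hyp ⟨_, List.mem_map.2 ⟨e, he, rfl⟩, rfl⟩)
  refine not_force_dec hT E' 0 1 (fun hprf => ?_) h _ hf
  have h1 := sound hB hprf (cs q (fun _ => p)) (gam_sat ?_)
  · exact hpq h1.symm
  · intro e he
    obtain ⟨e0, he0, rfl⟩ := List.mem_map.1 he
    change (e0.1.sub σ).ev _ _ = (e0.2.sub σ).ev _ _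
    rw [ev_sub, ev_sub]
    change e0.1.ev B (fun _ => p) = e0.2.ev B (fun _ => p)
    rw [ev_const hp, ev_const hp]

end Q211.WR
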