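import Pool.Agent.Q211.WR.Sub

/-!
# Presented models and completeness for geometric implications
-/

set_option autoImplicit false

namespace Q211.WR

variable {S : Sig} {T : Set (Fm S 0)}

/-- The hypotheses given by a list of equations. -/
def gam {m : ℕ} (E : List (Tm S m × Tm S m)) : Set (Fm S m) := {φ | ∃ e ∈ E, φ = .eq e.1 e.2}

theorem Prf.symm {n : ℕ} {Γ : Set (Fm S n)} {s t : Tm S n} (h : Prf T Γ (.eq s t)) :
    Prf T Γ (.eq t s) := by
  have h1 := Prf.leib (.eq (.var 0) (s.sub fun i => .var i.succ)) h
    (by simp only [Fm.inst, Fm.sub, Tm.sub, cs_zero, Tm.sub_sub, cs_succ, Tm.sub_var]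
        exact .refl s)
  simpa only [Fm.inst, Fm.sub, Tm.sub, cs_zero, Tm.sub_sub, cs_succ, Tm.sub_var] using h1

theorem Prf.trans {n : ℕ} {Γ : Set (Fm S n)} {s t r : Tm S n} (h : Prf T Γ (.eq s t))
    (h' : Prf T Γ (.eq t r)) : Prf T Γ (.eq s r) := by
  have h1 := Prf.leib (.eq (s.sub fun i => .var i.succ) (.var 0)) h'
    (by simp only [Fm.inst, Fm.sub, Tm.sub, cs_zero, Tm.sub_sub, cs_succ, Tm.sub_var]
        exact h)
  simpa only [Fm.inst, Fm.sub, Tm.sub, cs_zero, Tm.sub_sub, cs_succ, Tm.sub_var] using h1

theorem Prf.congr {n : ℕ} {Γ : Set (Fm S n)} (f : S.Fn) {a b : Fin (S.ar f) → Tm S n}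
    (h : ∀ i, Prf T Γ (.eq (a i) (b i))) : Prf T Γ (.eq (.app f a) (.app f b)) := by
  classical
  have key : ∀ k : ℕ, Prf T Γ (.eq (.app f a) (.app f fun i => if i.1 < k then b i else a i)) := by
    intro k
    induction k with
    | zero => simp only [Nat.not_lt_zero, if_false]; exact .refl _
    | succ k ih =>
        by_cases hk : k < S.ar f
        · let j : Fin (S.ar f) := ⟨k, hk⟩
          have h1 := Prf.leib (.eq ((Tm.app f a).sub fun i => .var i.succ)
            (.app f fun i => if i = j then .var 0 else
              (if i.1 < k then b i else a i).sub fun i => .var i.succ)) (h j)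
            (by
              have e : (fun i => ((if i = j then .var 0 else
                  (if i.1 < k then b i else a i).sub fun i => .var i.succ : Tm S (n + 1))).sub
                    (cs (a j) .var)) = fun i : Fin (S.ar f) => if i.1 < k then b i else a i := by
                funext i
                by_cases hi : i = j
                · subst hi
                  simp [Tm.sub, j]
                · rw [if_neg hi, Tm.sub_sub]
                  exact Tm.sub_var _
              have e' : ((Tm.app f a).sub fun i => .var i.succ).sub (cs (a j) .var) = .app f a := by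
                rw [Tm.sub_sub]; exact Tm.sub_var _
              change Prf T Γ (.eq _ (.app f _))
              rw [e, e']
              exact ih)
          have e : (fun i => ((if i = j then .var 0 else
              (if i.1 < k then b i else a i).sub fun i => .var i.succ : Tm S (n + 1))).sub
                (cs (b j) .var)) = fun i : Fin (S.ar f) => if i.1 < k + 1 then b i else a i := by
            funext i
            by_cases hi : i = j
            · subst hi
              simp [Tm.sub, j]
            · have hne : i.1 ≠ k := fun hh => hi (Fin.ext hh)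
              rw [if_neg hi, Tm.sub_sub]
              have e3 : (if i.1 < k + 1 then b i else a i) = if i.1 < k then b i else a i := by
                by_cases h3 : i.1 < k
                · rw [if_pos h3, if_pos (by omega)]
                · rw [if_neg h3, if_neg (by omega)]
              rw [e3]
              exact Tm.sub_var _
          have e' : ((Tm.app f a).sub fun i => .var i.succ).sub (cs (b j) .var) = .app f a := by
            rw [Tm.sub_sub]; exact Tm.sub_var _
          change Prf T Γ (.eq _ (.app f _)) at h1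
          rwa [e, e'] at h1
        · have e : (fun i : Fin (S.ar f) => if i.1 < k + 1 then b i else a i) =
              fun i : Fin (S.ar f) => if i.1 < k then b i else a i := by
            funext i
            rw [if_pos (by omega), if_pos (by omega)]
          rw [e]
          exact ih
  have h2 := key (S.ar f)
  have e : (fun i : Fin (S.ar f) => if i.1 < S.ar f then b i else a i) = b := by
    funext i
    rw [if_pos i.2]
  rwa [e] at h2

/-- Provable equality. -/
def pst (T : Set (Fm S 0)) {m : ℕ} (E : List (Tm S m × Tm S m)) : Setoid (Tm S m) where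
  r s t := Prf T (gam E) (.eq s t)
  iseqv := ⟨fun s => .refl s, fun h => h.symm, fun h h' => h.trans h'⟩

/-- The model of `T` presented by the generators `x_0, …, x_{m-1}` and the relations `E`. -/
noncomputable def pres (T : Set (Fm S 0)) {m : ℕ} (E : List (Tm S m × Tm S m)) : Alg S where
  car := Quotient (pst T E)
  op f a := Quotient.mk _ (.app f fun i => (a i).out)

/-- The class of a term. -/
def cl (T : Set (Fm S 0)) {m : ℕ} (E : List (Tm S m × Tm S m)) (t : Tm S m) : (pres T E).car :=
  Quotient.mk (pst T E) t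

theorem cl_eq {m : ℕ} {E : List (Tm S m × Tm S m)} {s t : Tm S m} :
    cl T E s = cl T E t ↔ Prf T (gam E) (.eq s t) := by
  refine ⟨fun h => Quotient.exact h, fun h => Quotient.sound h⟩

theorem cl_surj {m : ℕ} {E : List (Tm S m × Tm S m)} (a : (pres T E).car) :
    ∃ t, cl T E t = a := ⟨Quotient.out a, Quotient.out_eq a⟩

theorem cl_lift {m k : ℕ} {E : List (Tm S m × Tm S m)} (v : Fin k → (pres T E).car) :
    ∃ σ : Fin k → Tm S m, (fun i => cl T E (σ i)) = v := by
  choose σ hσ using fun i => cl_surj (v i)
  exact ⟨σ, funext hσ⟩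

theorem op_cl {m : ℕ} {E : List (Tm S m × Tm S m)} (f : S.Fn) (a : Fin (S.ar f) → Tm S m) :
    (pres T E).op f (fun i => cl T E (a i)) = cl T E (.app f a) := by
  refine Quotient.sound (Prf.congr f fun i => ?_)
  exact Quotient.exact (Quotient.out_eq (cl T E (a i)))

theorem ev_cl {m k : ℕ} {E : List (Tm S m × Tm S m)} (t : Tm S k) (σ : Fin k → Tm S m) :
    t.ev (pres T E) (fun i => cl T E (σ i)) = cl T E (t.sub σ) := by
  induction t with
  | var i => rfl
  | app f a ih => simp only [Tm.ev, ih, op_cl, Tm.sub]

theorem ev_var {m : ℕ} {E : List (Tm S m × Tm S m)} (t : Tm S m) :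
    t.ev (pres T E) (fun i => cl T E (.var i)) = cl T E t := by
  rw [ev_cl, Tm.sub_var]

theorem models_pres (hT : Algebraic T) {m : ℕ} (E : List (Tm S m × Tm S m)) :
    Models (pres T E) T := by
  intro φ hφ
  obtain ⟨k, s, t, rfl⟩ := hT φ hφ
  rw [sat_closure]
  intro w
  obtain ⟨σ, rfl⟩ := cl_lift w
  change s.ev _ _ = t.ev _ _
  rw [ev_cl, ev_cl, cl_eq]
  exact closure_inst k (.eq s t) (.ax hφ) σ

theorem gam_sat {B : Alg S} {m : ℕ} {E : List (Tm S m × Tm S m)} {y : Fin m → B.car}
    (h : ∀ e ∈ E, e.1.ev B y = e.2.ev B y) : ∀ γ ∈ gam E, Sat B γ y := by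
  rintro _ ⟨e, he, rfl⟩
  exact h e he

/-- The homomorphism given by the universal property. -/
noncomputable def lift {B : Alg S} (hB : Models B T) {m : ℕ} {E : List (Tm S m × Tm S m)}
    (y : Fin m → B.car) (h : ∀ e ∈ E, e.1.ev B y = e.2.ev B y) : Hom (pres T E) B where
  f := Quotient.lift (fun t => t.ev B y) fun _ _ hst => sound hB hst y (gam_sat h)
  op g a := by
    obtain ⟨σ, rfl⟩ := cl_lift a
    rw [op_cl]
    rfl

theorem lift_cl {B : Alg S} (hB : Models B T) {m : ℕ} {E : List (Tm S m × Tm S m)}
    (y : Fin m → B.car) (h : ∀ e ∈ E, e.1.ev B y = e.2.ev B y) (t : Tm S m) :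
    (lift hB y h).f (cl T E t) = t.ev B y := rfl

theorem Hom.ev {A B : Alg S} (h : Hom A B) {n : ℕ} (v : Fin n → A.car) (t : Tm S n) :
    h.f (t.ev A v) = t.ev B (h.f ∘ v) := by
  induction t with
  | var i => rfl
  | app f a ih => simp only [Tm.ev, h.op, ih]

@[ext] theorem Hom.ext {A B : Alg S} {h h' : Hom A B} (e : ∀ a, h.f a = h'.f a) : h = h' := by
  cases h; cases h'
  congr
  exact funext e

theorem finPres_pres (hT : Algebraic T) {m : ℕ} (E : List (Tm S m × Tm S m)) :
    FinPres T (pres T E) := by
  refine ⟨models_pres hT E, m, fun i => cl T E (.var i), E, fun e he => ?_, fun B hB y hy => ?_⟩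
  · rw [ev_var, ev_var, cl_eq]
    exact .hyp ⟨e, he, rfl⟩
  · refine ⟨lift hB y hy, fun i => rfl, fun h hh => ?_⟩
    ext a
    obtain ⟨t, rfl⟩ := cl_surj a
    rw [lift_cl, ← ev_var, h.ev]
    congr 1
    funext i
    exact hh i

/-- Geometric formulas which are true in a presented model are provable from the relations. -/
theorem diagram {m : ℕ} {E : List (Tm S m × Tm S m)} {k : ℕ} {ψ : Fm S k} (hψ : Geo ψ) :
    ∀ σ : Fin k → Tm S m, Sat (pres T E) ψ (fun i => cl T E (σ i)) →
      Prf T (gam E) (ψ.sub σ) := by
  induction hψ with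
  | eq s t =>
      intro σ h
      change s.ev _ _ = t.ev _ _ at h
      rw [ev_cl, ev_cl, cl_eq] at h
      exact h
  | top => intro σ h; exact .topI
  | bot => intro σ h; exact h.elim
  | and _ _ h₁ h₂ => intro σ h; exact .andI (h₁ σ h.1) (h₂ σ h.2)
  | or _ ih => intro σ h; obtain ⟨i, hi⟩ := h; exact .orI i (ih i σ hi)
  | @ex k φ _ ih =>
      intro σ h
      obtain ⟨a, ha⟩ := h
      obtain ⟨t, rfl⟩ := cl_surj a
      refine .exI t ?_
      rw [up_inst]
      refine ih (cs t σ) ?_
      have e : (fun i => cl T E ((cs t σ : Fin (k + 1) → Tm S m) i)) =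
          cs (cl T E t) fun i => cl T E (σ i) := by
        funext i
        refine Fin.cases rfl (fun j => rfl) i
      rw [e]
      exact ha

theorem gam_transfer (hT : Algebraic T) {m m' : ℕ} {E : List (Tm S m × Tm S m)}
    {E' : List (Tm S m' × Tm S m')} (τ : Fin m → Tm S m')
    (h : ∀ e ∈ E, Prf T (gam E') (.eq (e.1.sub τ) (e.2.sub τ))) {φ : Fm S m}
    (hφ : Prf T (gam E) φ) : Sat (pres T E') φ fun i => cl T E' (τ i) := by
  refine sound (models_pres hT E') hφ _ (gam_sat fun e he => ?_)
  rw [ev_cl, ev_cl, cl_eq]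
  exact h e he

theorem claim (hT : Algebraic T) {k : ℕ} {φ : Fm S k} (hφ : Geo φ) :
    ∀ (m : ℕ) (E : List (Tm S m × Tm S m)) (v : Fin k → Tm S m) (χ : Fm S m),
      (∀ (m' : ℕ) (E' : List (Tm S m' × Tm S m')) (σ : Fin m → Tm S m'),
        (∀ e ∈ E, Prf T (gam E') (.eq (e.1.sub σ) (e.2.sub σ))) →
        Sat (pres T E') φ (fun i => cl T E' ((v i).sub σ)) → Prf T (gam E') (χ.sub σ)) →
      Prf T (gam E) (.imp (φ.sub v) χ) := by
  induction hφ with
  | eq s t =>
      intro m E v χ H
      refine .impI ?_
      have h1 := H m ((s.sub v, t.sub v) :: E) .var ?_ ?_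
      · rw [Fm.sub_var] at h1
        refine h1.mono subset_rfl ?_
        rintro _ ⟨e, he, rfl⟩
        rcases List.mem_cons.1 he with rfl | he
        · exact Or.inl rfl
        · exact Or.inr ⟨e, he, rfl⟩
      · intro e he
        rw [Tm.sub_var, Tm.sub_var]
        exact .hyp ⟨e, List.mem_cons_of_mem _ he, rfl⟩
      · change s.ev _ _ = t.ev _ _
        simp only [Tm.sub_var]
        rw [ev_cl, ev_cl, cl_eq]
        exact .hyp ⟨_, List.mem_cons_self, rfl⟩
  | top =>
      intro m E v χ H
      refine .impI ?_
      have h1 := H m E .var ?_ trivial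
      · rw [Fm.sub_var] at h1
        exact h1.mono subset_rfl (Set.subset_insert _ _)
      · intro e he
        rw [Tm.sub_var, Tm.sub_var]
        exact .hyp ⟨e, he, rfl⟩
  | bot =>
      intro m E v χ H
      exact .impI (.botE (.hyp (Or.inl rfl)))
  | @and k φ₁ φ₂ g₁ g₂ ih₁ ih₂ =>
      intro m E v χ H
      have h1 := ih₁ m E v (.imp (φ₂.sub v) χ) ?_
      · refine .impI ?_
        have h2 := h1.mono subset_rfl (Set.subset_insert (Fm.and (φ₁.sub v) (φ₂.sub v)) (gam E))
        exact .impE (.impE h2 (.andL (.hyp (Or.inl rfl)))) (.andR (.hyp (Or.inl rfl)))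
      · intro m' E' σ hσ h₁
        change Prf T (gam E') (.imp ((φ₂.sub v).sub σ) (χ.sub σ))
        rw [Fm.sub_sub]
        refine ih₂ m' E' _ _ ?_
        intro m'' E'' τ hτ h₂
        rw [Fm.sub_sub]
        refine H m'' E'' (fun i => (σ i).sub τ) ?_ ⟨?_, ?_⟩
        · intro e he
          have h3 := gam_transfer hT τ hτ (hσ e he)
          change (e.1.sub σ).ev _ _ = (e.2.sub σ).ev _ _ at h3
          rw [ev_cl, ev_cl, cl_eq, Tm.sub_sub, Tm.sub_sub] at h3
          exact h3
        · have h3 := gam_transfer hT τ hτ (diagram g₁ _ h₁)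
          rw [sat_sub] at h3
          have e : (fun i => ((v i).sub σ).ev (pres T E'') fun i => cl T E'' (τ i)) =
              fun i => cl T E'' ((v i).sub fun i => (σ i).sub τ) := by
            funext i
            rw [ev_cl, Tm.sub_sub]
          rwa [e] at h3
        · have e : (fun i => cl T E'' ((v i).sub fun i => (σ i).sub τ)) =
              fun i => cl T E'' (((v i).sub σ).sub τ) := by
            funext i
            rw [Tm.sub_sub]
          rw [e]
          exact h₂
  | @or k I φ g ih =>
      intro m E v χ H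
      refine .impI (.orE (.hyp (Or.inl rfl)) fun i => ?_)
      have h1 := ih i m E v χ fun m' E' σ hσ h => H m' E' σ hσ ⟨i, h⟩
      refine .impE (h1.mono subset_rfl ?_) (.hyp (Or.inl rfl))
      exact (Set.subset_insert _ _).trans (Set.subset_insert _ _)
  | @ex k φ g ih =>
      intro m E v χ H
      let E1 : List (Tm S (m + 1) × Tm S (m + 1)) :=
        E.map fun e => (e.1.sub fun i => .var i.succ, e.2.sub fun i => .var i.succ)
      have h1 := ih (m + 1) E1 (up v) χ.wk ?_
      · refine .impI (.exE (.hyp (Or.inl rfl)) ?_)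
        refine .impE (h1.mono subset_rfl ?_) (.hyp (Or.inl rfl))
        rintro _ ⟨e, he, rfl⟩
        obtain ⟨e0, he0, rfl⟩ := List.mem_map.1 he
        exact Or.inr ⟨.eq e0.1 e0.2, Or.inr ⟨e0, he0, rfl⟩, rfl⟩
      · intro m' E' σ hσ h
        have e : χ.wk.sub σ = χ.sub fun i => σ i.succ := by
          rw [Fm.wk, Fm.sub_sub]; rfl
        rw [e]
        refine H m' E' (fun i => σ i.succ) ?_ ⟨cl T E' (σ 0), ?_⟩
        · intro e0 he0
          have h2 := hσ _ (List.mem_map.2 ⟨e0, he0, rfl⟩)
          simp only [Tm.sub_sub] at h2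
          exact h2
        · have e2 : (fun i => cl T E' ((up v i).sub σ)) =
              cs (cl T E' (σ 0)) fun i => cl T E' ((v i).sub fun i => σ i.succ) := by
            funext i
            refine Fin.cases rfl (fun j => ?_) i
            simp only [up, cs_succ, Tm.sub_sub]
            rfl
          rw [← e2]
          exact h

/-- Completeness of the presented models for geometric implications. -/
theorem complete (hT : Algebraic T) {n : ℕ} {φ ψ : Fm S n} (hφ : Geo φ) (hψ : Geo ψ)
    (H : ∀ (m : ℕ) (E : List (Tm S m × Tm S m)) (v : Fin n → (pres T E).car),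
      Sat (pres T E) φ v → Sat (pres T E) ψ v) : Prf T ∅ (closure n (.imp φ ψ)) := by
  refine closure_intro n _ ?_
  have h1 := claim hT hφ n [] .var ψ fun m' E' σ _ h => diagram hψ σ (H m' E' _ h)
  rw [Fm.sub_var] at h1
  refine h1.mono subset_rfl ?_
  rintro _ ⟨e, he, rfl⟩
  simp at he

/-- Sentences which are true in all models (in the classical sense) are redundant. -/
theorem redundant_of_sat (hT : Algebraic T) {α : Fm S 0}
    (hα : ∀ A : Alg S, Models A T → Sat A α fun i => i.elim0) : Redundant T α := by
  intro n φ ψ hφ hψ h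
  refine complete hT hφ hψ fun m E v hv => ?_
  have hm : Models (pres T E) (insert α T) := by
    rintro χ (rfl | hχ)
    · exact hα _ (models_pres hT E)
    · exact models_pres hT E χ hχ
  have h1 := sound hm h (fun i => i.elim0) (by simp)
  rw [sat_closure] at h1
  exact h1 v hv

end Q211.WR
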