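import Pool.Agent.Q211.WR.Def

/-!
# Substitution, soundness for structures
-/

set_option autoImplicit false

namespace Q211.WR

variable {S : Sig}

theorem Tm.sub_sub {n m k : ℕ} (t : Tm S n) (σ : Fin n → Tm S m) (τ : Fin m → Tm S k) :
    (t.sub σ).sub τ = t.sub fun i => (σ i).sub τ := by
  induction t with
  | var i => rfl
  | app f a ih => simp only [Tm.sub, ih]

theorem Tm.sub_var {n : ℕ} (t : Tm S n) : t.sub .var = t := by
  induction t with
  | var i => rfl
  | app f a ih => simp only [Tm.sub, ih]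

theorem up_var {n : ℕ} : up (.var : Fin n → Tm S n) = .var := by
  funext i
  refine Fin.cases rfl (fun j => rfl) i

theorem up_sub {n m k : ℕ} (σ : Fin n → Tm S m) (τ : Fin m → Tm S k) :
    up (fun i => (σ i).sub τ) = fun i => (up σ i).sub (up τ) := by
  funext i
  refine Fin.cases rfl (fun j => ?_) i
  simp only [up, cs_succ, Tm.sub_sub]
  rfl

theorem Fm.sub_sub {n : ℕ} (φ : Fm S n) : ∀ {m k : ℕ} (σ : Fin n → Tm S m) (τ : Fin m → Tm S k),
    (φ.sub σ).sub τ = φ.sub fun i => (σ i).sub τ := by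
  induction φ with
  | eq s t => intro m k σ τ; simp only [Fm.sub, Tm.sub_sub]
  | top => intro m k σ τ; rfl
  | bot => intro m k σ τ; rfl
  | and φ ψ h₁ h₂ => intro m k σ τ; simp only [Fm.sub, h₁, h₂]
  | or I φ h => intro m k σ τ; simp only [Fm.sub, h]
  | imp φ ψ h₁ h₂ => intro m k σ τ; simp only [Fm.sub, h₁, h₂]
  | all φ h => intro m k σ τ; simp only [Fm.sub, h, up_sub]
  | ex φ h => intro m k σ τ; simp only [Fm.sub, h, up_sub]

theorem Fm.sub_var {n : ℕ} (φ : Fm S n) : φ.sub .var = φ := by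
  induction φ with
  | eq s t => simp only [Fm.sub, Tm.sub_var]
  | top => rfl
  | bot => rfl
  | and φ ψ h₁ h₂ => simp only [Fm.sub, h₁, h₂]
  | or I φ h => simp only [Fm.sub, h]
  | imp φ ψ h₁ h₂ => simp only [Fm.sub, h₁, h₂]
  | all φ h => simp only [Fm.sub, up_var, h]
  | ex φ h => simp only [Fm.sub, up_var, h]

theorem sub_zero (φ : Fm S 0) (σ : Fin 0 → Tm S 0) : φ.sub σ = φ := by
  rw [Subsingleton.elim σ .var, Fm.sub_var]

theorem wk_sub {n m : ℕ} (φ : Fm S n) (t : Tm S m) (σ : Fin n → Tm S m) :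
    φ.wk.sub (cs t σ) = φ.sub σ := by
  rw [Fm.wk, Fm.sub_sub]; rfl

theorem sub_wk {n m : ℕ} (φ : Fm S n) (σ : Fin n → Tm S m) :
    (φ.sub σ).wk = φ.sub fun i => (σ i).sub fun l => .var l.succ := by
  rw [Fm.wk, Fm.sub_sub]

theorem up_inst {n m : ℕ} (φ : Fm S (n + 1)) (σ : Fin n → Tm S m) (t : Tm S m) :
    (φ.sub (up σ)).inst t = φ.sub (cs t σ) := by
  rw [Fm.inst, Fm.sub_sub]
  congr 1
  funext i
  refine Fin.cases rfl (fun j => ?_) i
  simp only [up, cs_succ, Tm.sub_sub]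
  exact Tm.sub_var _

theorem Geo.sub {n : ℕ} {φ : Fm S n} (h : Geo φ) : ∀ {m : ℕ} (σ : Fin n → Tm S m),
    Geo (φ.sub σ) := by
  induction h with
  | eq s t => intro m σ; exact .eq _ _
  | top => intro m σ; exact .top
  | bot => intro m σ; exact .bot
  | and _ _ h₁ h₂ => intro m σ; exact .and (h₁ σ) (h₂ σ)
  | or _ h => intro m σ; exact .or fun i => h i σ
  | ex _ h => intro m σ; exact .ex (h _)

/-! ### Semantics -/

theorem ev_sub (A : Alg S) {n m : ℕ} (t : Tm S n) (σ : Fin n → Tm S m) (v : Fin m → A.car) :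
    (t.sub σ).ev A v = t.ev A fun i => (σ i).ev A v := by
  induction t with
  | var i => rfl
  | app f a ih => simp only [Tm.sub, Tm.ev, ih]

theorem ev_up (A : Alg S) {n m : ℕ} (σ : Fin n → Tm S m) (v : Fin m → A.car) (a : A.car) :
    (fun i => (up σ i).ev A (cs a v)) = cs a fun i => (σ i).ev A v := by
  funext i
  refine Fin.cases rfl (fun j => ?_) i
  simp only [up, cs_succ, ev_sub]
  rfl

theorem sat_sub (A : Alg S) {n : ℕ} (φ : Fm S n) : ∀ {m : ℕ} (σ : Fin n → Tm S m)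
    (v : Fin m → A.car), Sat A (φ.sub σ) v ↔ Sat A φ fun i => (σ i).ev A v := by
  induction φ with
  | eq s t => intro m σ v; simp only [Fm.sub, Sat, ev_sub]
  | top => intro m σ v; rfl
  | bot => intro m σ v; rfl
  | and φ ψ h₁ h₂ => intro m σ v; simp only [Fm.sub, Sat, h₁, h₂]
  | or I φ h => intro m σ v; simp only [Fm.sub, Sat, h]
  | imp φ ψ h₁ h₂ => intro m σ v; simp only [Fm.sub, Sat, h₁, h₂]
  | all φ h => intro m σ v; simp only [Fm.sub, Sat, h, ev_up]
  | ex φ h => intro m σ v; simp only [Fm.sub, Sat, h, ev_up]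

theorem sat_wk (A : Alg S) {n : ℕ} (φ : Fm S n) (a : A.car) (v : Fin n → A.car) :
    Sat A φ.wk (cs a v) ↔ Sat A φ v := by
  rw [Fm.wk, sat_sub]; rfl

theorem sat_inst (A : Alg S) {n : ℕ} (φ : Fm S (n + 1)) (t : Tm S n) (v : Fin n → A.car) :
    Sat A (φ.inst t) v ↔ Sat A φ (cs (t.ev A v) v) := by
  rw [Fm.inst, sat_sub]
  have : (fun i => (cs t .var i : Tm S n).ev A v) = cs (t.ev A v) v := by
    funext i
    refine Fin.cases rfl (fun j => rfl) i
  rw [this]

theorem sat_closure (A : Alg S) : ∀ (n : ℕ) (φ : Fm S n) (v : Fin 0 → A.car),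
    Sat A (closure n φ) v ↔ ∀ w, Sat A φ w
  | 0, φ, v => ⟨fun h w => by rwa [Subsingleton.elim w v], fun h => h v⟩
  | n + 1, φ, v => by
      rw [closure, sat_closure A n]
      constructor
      · intro h w
        have := h (fun i => w i.succ) (w 0)
        rwa [cs_eta] at this
      · intro h w a
        exact h _

/-- Soundness of derivability for the classical semantics. -/
theorem sound {T : Set (Fm S 0)} {A : Alg S} (hA : Models A T) {n : ℕ} {Γ : Set (Fm S n)}
    {φ : Fm S n} (h : Prf T Γ φ) : ∀ v : Fin n → A.car, (∀ γ ∈ Γ, Sat A γ v) → Sat A φ v := by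
  induction h with
  | ax h =>
      intro v _
      rw [sat_sub, Subsingleton.elim (fun i => _) fun i => i.elim0]
      exact hA _ h
  | hyp h => intro v hv; exact hv _ h
  | topI => intro v hv; trivial
  | botE _ h => intro v hv; exact (h v hv).elim
  | andI _ _ h₁ h₂ => intro v hv; exact ⟨h₁ v hv, h₂ v hv⟩
  | andL _ h => intro v hv; exact (h v hv).1
  | andR _ h => intro v hv; exact (h v hv).2
  | orI i _ h => intro v hv; exact ⟨i, h v hv⟩
  | orE _ _ h h' =>
      intro v hv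
      obtain ⟨i, hi⟩ := h v hv
      exact h' i v (Set.forall_mem_insert.2 ⟨hi, hv⟩)
  | impI _ h => intro v hv hφ; exact h v (Set.forall_mem_insert.2 ⟨hφ, hv⟩)
  | impE _ _ h h' => intro v hv; exact h v hv (h' v hv)
  | allI _ h =>
      intro v hv a
      exact h _ (by rintro _ ⟨γ, hγ, rfl⟩; exact (sat_wk A γ a v).2 (hv γ hγ))
  | allE t _ h => intro v hv; exact (sat_inst A _ t v).2 (h v hv _)
  | exI t _ h => intro v hv; exact ⟨_, (sat_inst A _ t v).1 (h v hv)⟩
  | exE _ _ h h' =>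
      intro v hv
      obtain ⟨a, ha⟩ := h v hv
      refine (sat_wk A _ a v).1 (h' _ (Set.forall_mem_insert.2 ⟨ha, ?_⟩))
      rintro _ ⟨γ, hγ, rfl⟩
      exact (sat_wk A γ a v).2 (hv γ hγ)
  | refl t => intro v hv; rfl
  | leib φ _ _ h h' =>
      intro v hv
      have h1 := h v hv
      have h2 := h' v hv
      rw [sat_inst] at h2 ⊢
      rw [← show _ = _ from h1]
      exact h2

/-! ### Derived rules -/

theorem Prf.mono {T : Set (Fm S 0)} {n : ℕ} {Γ : Set (Fm S n)} {φ : Fm S n} (h : Prf T Γ φ) :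
    ∀ {T' : Set (Fm S 0)} {Γ' : Set (Fm S n)}, T ⊆ T' → Γ ⊆ Γ' → Prf T' Γ' φ := by
  induction h with
  | ax h => intro T' Γ' hT hΓ; exact .ax (hT h)
  | hyp h => intro T' Γ' hT hΓ; exact .hyp (hΓ h)
  | topI => intro T' Γ' hT hΓ; exact .topI
  | botE _ h => intro T' Γ' hT hΓ; exact .botE (h hT hΓ)
  | andI _ _ h₁ h₂ => intro T' Γ' hT hΓ; exact .andI (h₁ hT hΓ) (h₂ hT hΓ)
  | andL _ h => intro T' Γ' hT hΓ; exact .andL (h hT hΓ)
  | andR _ h => intro T' Γ' hT hΓ; exact .andR (h hT hΓ)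
  | orI i _ h => intro T' Γ' hT hΓ; exact .orI i (h hT hΓ)
  | orE _ _ h h' =>
      intro T' Γ' hT hΓ
      exact .orE (h hT hΓ) fun i => h' i hT (Set.insert_subset_insert hΓ)
  | impI _ h => intro T' Γ' hT hΓ; exact .impI (h hT (Set.insert_subset_insert hΓ))
  | impE _ _ h h' => intro T' Γ' hT hΓ; exact .impE (h hT hΓ) (h' hT hΓ)
  | allI _ h => intro T' Γ' hT hΓ; exact .allI (h hT (Set.image_mono hΓ))
  | allE t _ h => intro T' Γ' hT hΓ; exact .allE t (h hT hΓ)
  | exI t _ h => intro T' Γ' hT hΓ; exact .exI t (h hT hΓ)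
  | exE _ _ h h' =>
      intro T' Γ' hT hΓ
      exact .exE (h hT hΓ) (h' hT (Set.insert_subset_insert (Set.image_mono hΓ)))
  | refl t => intro T' Γ' hT hΓ; exact .refl t
  | leib φ _ _ h h' => intro T' Γ' hT hΓ; exact .leib φ (h hT hΓ) (h' hT hΓ)

theorem closure_inst {T : Set (Fm S 0)} {n : ℕ} {Γ : Set (Fm S n)} :
    ∀ (k : ℕ) (φ : Fm S k), Prf T Γ ((closure k φ).sub fun i => i.elim0) →
      ∀ σ : Fin k → Tm S n, Prf T Γ (φ.sub σ)
  | 0, φ, h, σ => by rwa [Subsingleton.elim σ fun i => i.elim0]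
  | k + 1, φ, h, σ => by
      have h1 := closure_inst k (.all φ) h fun i => σ i.succ
      have h2 := Prf.allE (σ 0) h1
      rwa [up_inst, cs_eta] at h2

theorem closure_intro {T : Set (Fm S 0)} :
    ∀ (k : ℕ) (φ : Fm S k), Prf T ∅ φ → Prf T ∅ (closure k φ)
  | 0, φ, h => h
  | k + 1, φ, h => closure_intro k (.all φ) (.allI (by rwa [Set.image_empty]))

end Q211.WR
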